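import Pool.Agent.Lib.MP_3ee548_nt.RS.Iface

/-!
# Module ABEL of the RS board: Abel summation on a dyadic block
-/

set_option autoImplicit false

open scoped BigOperators

namespace Pool.Agent.Lib.MP_3ee548_nt.RS.H92

/-- Abel summation over `a, a + 1, ..., a + l`. -/
theorem abel_identity (g z : ℕ → ℂ) (a l : ℕ) :
    ∑ m ∈ Finset.Ico a (a + l + 1), g m * z m =
      g (a + l) * (∑ m ∈ Finset.Ico a (a + l + 1), z m)
        - ∑ m ∈ Finset.Ico a (a + l), (g (m + 1) - g m) * ∑ i ∈ Finset.Ico a (m + 1), z i := by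
  induction l with
  | zero => simp
  | succ l ih =>
    have h1 : ∑ m ∈ Finset.Ico a (a + (l + 1) + 1), g m * z m =
        ∑ m ∈ Finset.Ico a (a + l + 1), g m * z m + g (a + l + 1) * z (a + l + 1) :=
      Finset.sum_Ico_succ_top (by omega) _
    have h2 : ∑ m ∈ Finset.Ico a (a + (l + 1) + 1), z m =
        ∑ m ∈ Finset.Ico a (a + l + 1), z m + z (a + l + 1) :=
      Finset.sum_Ico_succ_top (by omega) _
    have h3 : ∑ m ∈ Finset.Ico a (a + (l + 1)),
          (g (m + 1) - g m) * ∑ i ∈ Finset.Ico a (m + 1), z i =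
        ∑ m ∈ Finset.Ico a (a + l), (g (m + 1) - g m) * ∑ i ∈ Finset.Ico a (m + 1), z i
          + (g (a + l + 1) - g (a + l)) * ∑ i ∈ Finset.Ico a (a + l + 1), z i :=
      Finset.sum_Ico_succ_top (Nat.le_add_right a l) _
    rw [h1, h2, h3, ih, show a + (l + 1) = a + l + 1 from rfl]
    ring

theorem abel : AbelStatement := by
  intro k g z P hP
  have hk : 1 ≤ 2 ^ k := Nat.one_le_two_pow
  obtain ⟨l, hl⟩ : ∃ l, 2 ^ k = l + 1 := ⟨2 ^ k - 1, by omega⟩
  have h2 : 2 ^ (k + 1) = 2 ^ k + l + 1 := by rw [pow_succ]; omega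
  have hblk : blk k = Finset.Ico (2 ^ k) (2 ^ k + l + 1) := by rw [blk, h2]
  have hBV : BVn g k = ‖g (2 ^ k + l)‖
      + ∑ m ∈ Finset.Ico (2 ^ k) (2 ^ k + l), ‖g (m + 1) - g m‖ := by
    rw [BVn, h2]
    rfl
  rw [hblk, abel_identity, hBV, mul_add]
  refine (norm_sub_le _ _).trans (add_le_add ?_ ?_)
  · rw [norm_mul, mul_comm]
    refine mul_le_mul_of_nonneg_right ?_ (norm_nonneg _)
    have := hP (l + 1) (by omega)
    rwa [← add_assoc] at this
  · refine (norm_sum_le _ _).trans ?_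
    rw [Finset.mul_sum]
    refine Finset.sum_le_sum fun m hm => ?_
    rw [norm_mul, mul_comm]
    refine mul_le_mul_of_nonneg_right ?_ (norm_nonneg _)
    rw [Finset.mem_Ico] at hm
    have := hP (m + 1 - 2 ^ k) (by omega)
    rwa [show 2 ^ k + (m + 1 - 2 ^ k) = m + 1 by omega] at this

end Pool.Agent.Lib.MP_3ee548_nt.RS.H92
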